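import Pool.Agent.Helper96.ME.Defs

/-!
# MP_bde085_nt, block E, module SINV: spherical functions on SL2(F_p) are symmetric
-/

set_option autoImplicit false

namespace Pool.Agent.Helper96.ME

open Pool.Agent.Helper96.MP
open scoped MatrixGroups

/-- the Weyl element -/
def sinv_w (R : Type) [CommRing R] : SL(2, R) :=
  ⟨!![0, 1; -1, 0], by simp [Matrix.det_fin_two_of]⟩

theorem sinv_mul {R : Type} [CommRing R] (g h : SL(2, R)) (i j : Fin 2) :
    (g * h) i j = g i 0 * h 0 j + g i 1 * h 1 j := by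
  rw [Matrix.SpecialLinearGroup.coe_mul, Matrix.mul_apply, Fin.sum_univ_two]

theorem sinv_ext {R : Type} [CommRing R] {g h : SL(2, R)} (h1 : g 0 0 = h 0 0)
    (h2 : g 0 1 = h 0 1) (h3 : g 1 0 = h 1 0) (h4 : g 1 1 = h 1 1) : g = h := by
  ext i j
  fin_cases i <;> fin_cases j
  · exact h1
  · exact h2
  · exact h3
  · exact h4

theorem sinv_sgdg {R : Type} [CommRing R] (u t : Rˣ) : sg u (dg t) = dg t := by
  apply sinv_ext <;> simp [sg, dg]

theorem sinv_sgw {R : Type} [CommRing R] (u : Rˣ) :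
    sg u (sinv_w R) = sinv_w R * dg u⁻¹ := by
  apply sinv_ext <;> rw [sinv_mul] <;> simp [sg, dg, sinv_w]

theorem sinv_sgw' {R : Type} [CommRing R] (u : Rˣ) :
    sg u (sinv_w R) = dg u * sinv_w R := by
  apply sinv_ext <;> rw [sinv_mul] <;> simp [sg, dg, sinv_w]

theorem sinv_sgmul {R : Type} [CommRing R] (u : Rˣ) (g h : SL(2, R)) :
    sg u (g * h) = sg u g * sg u h := by
  have h1 : (u : R) * ((u⁻¹ : Rˣ) : R) = 1 := u.mul_inv
  apply sinv_ext
  · rw [sinv_mul (sg u g)]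
    simp only [sg, Matrix.of_apply, Matrix.cons_val', Matrix.cons_val_zero, Matrix.cons_val_one,
      Matrix.cons_val_fin_one, sinv_mul]
    linear_combination (-(g 0 1 * h 1 0)) * h1
  · rw [sinv_mul (sg u g)]
    simp only [sg, Matrix.of_apply, Matrix.cons_val', Matrix.cons_val_zero, Matrix.cons_val_one,
      Matrix.cons_val_fin_one, sinv_mul]
    ring
  · rw [sinv_mul (sg u g)]
    simp only [sg, Matrix.of_apply, Matrix.cons_val', Matrix.cons_val_zero, Matrix.cons_val_one,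
      Matrix.cons_val_fin_one, sinv_mul]
    ring
  · rw [sinv_mul (sg u g)]
    simp only [sg, Matrix.of_apply, Matrix.cons_val', Matrix.cons_val_zero, Matrix.cons_val_one,
      Matrix.cons_val_fin_one, sinv_mul]
    linear_combination (-(g 1 0 * h 0 1)) * h1

theorem sinv_sgsg {R : Type} [CommRing R] (u : Rˣ) (g : SL(2, R)) :
    sg u (sg u⁻¹ g) = g := by
  have h1 : (u : R) * ((u⁻¹ : Rˣ) : R) = 1 := u.mul_inv
  apply sinv_ext <;> simp [sg]

theorem sinv_ww {R : Type} [CommRing R] : sinv_w R * sinv_w R = dg (-1) := by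
  apply sinv_ext <;> rw [sinv_mul] <;> simp [sinv_w, dg]

section

variable {R : Type} [CommRing R] [Finite R] {φ : SL(2, R) → ℝ}

theorem sinv_const (c : ℝ) (F : Rˣ → ℝ) (hF : ∀ u, F u = c) :
    ∑ᶠ u : Rˣ, F u = (Nat.card Rˣ : ℝ) * c := by
  classical
  let _ : Fintype Rˣ := Fintype.ofFinite _
  rw [finsum_eq_sum_of_fintype, Nat.card_eq_fintype_card]
  simp [hF]

theorem sinv_card : (Nat.card Rˣ : ℝ) ≠ 0 := by
  have : 0 < Nat.card Rˣ := Nat.card_pos
  exact_mod_cast this.ne'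

omit [Finite R] in
theorem sinv_dg (hφ : Sph0 R φ) (t : Rˣ) : φ (dg t) = 1 := by
  have := hφ.left t 1
  rw [mul_one] at this
  rw [this, hφ.one]

theorem sinv_right (hφ : Sph0 R φ) (t : Rˣ) (g : SL(2, R)) : φ (g * dg t) = φ g := by
  have h1 := hφ.sph g (dg t)
  rw [sinv_const (φ (g * dg t)) _ (fun u => by rw [sinv_sgdg]), sinv_dg hφ, mul_one] at h1
  exact mul_left_cancel₀ sinv_card h1

theorem sinv_gw (hφ : Sph0 R φ) (g : SL(2, R)) : φ (g * sinv_w R) = φ g * φ (sinv_w R) := by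
  have h1 := hφ.sph g (sinv_w R)
  rw [sinv_const (φ (g * sinv_w R)) _
    (fun u => by rw [sinv_sgw, ← mul_assoc, sinv_right hφ])] at h1
  exact mul_left_cancel₀ sinv_card h1

theorem sinv_wg (hφ : Sph0 R φ) (g : SL(2, R)) : φ (sinv_w R * g) = φ (sinv_w R) * φ g := by
  have h1 := hφ.sph (sinv_w R) g
  rw [sinv_const (φ (sinv_w R * g)) _ (fun u => by
    have h2 : sinv_w R * sg u g = sg u (sg u⁻¹ (sinv_w R) * g) := by
      rw [sinv_sgmul, sinv_sgsg]
    rw [h2, hφ.sig, sinv_sgw', mul_assoc, hφ.left])] at h1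
  exact mul_left_cancel₀ sinv_card h1

theorem sinv_w2 (hφ : Sph0 R φ) : φ (sinv_w R) * φ (sinv_w R) = 1 := by
  rw [← sinv_gw hφ, sinv_ww, sinv_dg hφ]

end

theorem sinv_inv1 {F : Type} [Field F] [Finite F] {φ : SL(2, F) → ℝ} (hφ : Sph0 F φ) (g : SL(2, F))
    (ha : g 0 0 ≠ 0) (hd : g 1 1 ≠ 0) : φ g⁻¹ = φ g := by
  have h1 : g⁻¹ = sg (Units.mk0 (-(g 0 0 / g 1 1)) (neg_ne_zero.mpr (div_ne_zero ha hd)))
      (dg (Units.mk0 (g 1 1 / g 0 0) (div_ne_zero hd ha)) * g) := by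
    apply sinv_ext <;>
      simp only [sg, Matrix.of_apply, Matrix.cons_val', Matrix.cons_val_zero, Matrix.cons_val_one,
        Matrix.cons_val_fin_one, sinv_mul, Matrix.SpecialLinearGroup.SL2_inv_expl] <;>
      simp [dg] <;>
      field_simp
  rw [h1, hφ.sig, hφ.left]

theorem sinv_inv {F : Type} [Field F] [Finite F] {φ : SL(2, F) → ℝ} (hφ : Sph0 F φ) (g : SL(2, F)) :
    φ g⁻¹ = φ g := by
  by_cases hz : g 0 0 ≠ 0 ∧ g 1 1 ≠ 0
  · exact sinv_inv1 hφ g hz.1 hz.2
  · have had : g 0 0 * g 1 1 = 0 := by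
      rw [not_and_or] at hz
      rcases hz with h | h
      · rw [not_not.mp h, zero_mul]
      · rw [not_not.mp h, mul_zero]
    have hdet := g.2
    rw [Matrix.det_fin_two] at hdet
    have hbc : g 0 1 * g 1 0 = -1 := by
      have h5 : g 0 0 * g 1 1 - g 0 1 * g 1 0 = 1 := hdet
      linear_combination had - h5
    have hb : g 0 1 ≠ 0 := by
      intro h0
      rw [h0, zero_mul] at hbc
      exact one_ne_zero (neg_eq_zero.mp hbc.symm)
    have hc : g 1 0 ≠ 0 := by
      intro h0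
      rw [h0, mul_zero] at hbc
      exact one_ne_zero (neg_eq_zero.mp hbc.symm)
    have h2 : φ (sinv_w F * g)⁻¹ = φ (sinv_w F * g) := by
      apply sinv_inv1 hφ
      · rw [sinv_mul]
        simpa [sinv_w] using hc
      · rw [sinv_mul]
        simpa [sinv_w] using hb
    rw [sinv_wg hφ] at h2
    have h3 : (sinv_w F * g)⁻¹ = g⁻¹ * sinv_w F * dg (-1) := by
      rw [mul_inv_rev, mul_assoc]
      congr 1
      rw [← sinv_ww, ← mul_assoc]
      rw [inv_eq_iff_mul_eq_one]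
      have h6 : sinv_w F * (sinv_w F * sinv_w F * sinv_w F) =
          (sinv_w F * sinv_w F) * (sinv_w F * sinv_w F) := by
        simp only [mul_assoc]
      rw [h6, sinv_ww]
      apply sinv_ext <;> rw [sinv_mul] <;> simp [dg]
    rw [h3, sinv_right hφ, sinv_gw hφ] at h2
    have hw : φ (sinv_w F) ≠ 0 := by
      intro h0
      have := sinv_w2 hφ
      rw [h0, mul_zero] at this
      exact zero_ne_one this
    have h4 : φ g⁻¹ * φ (sinv_w F) = φ g * φ (sinv_w F) := by rw [h2, mul_comm]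
    exact mul_right_cancel₀ hw h4

theorem st_SINV : ST_SINV := by
  intro p hp φ hφ
  have : Fact p.Prime := ⟨hp⟩
  exact ⟨hφ.one, hφ.left, hφ.sig, hφ.sph, fun g => sinv_inv hφ g⟩

end Pool.Agent.Helper96.ME
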